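import Pool.Agent.MP_c69980_ag.H43.Spec10

/-!
The periodic lift of a leaf.
-/

set_option autoImplicit false

namespace Pool.Agent.MP_c69980_ag.H43

open MvPolynomial H60 Finset Filter Topology Metric

lemma flw_biH {ι κ : Type} {F : MvPolynomial ι ℂ} {d : ℕ} (hF : F.IsHomogeneous d) :
    BiH (rename (Sum.inl : ι → ι ⊕ κ) F) d 0 := by
  classical
  intro m hm
  obtain ⟨m', rfl, h⟩ := coeff_rename_ne_zero _ _ _ hm
  have h1 := hF h
  rw [Finsupp.weight_apply, Finsupp.sum_mapDomain_index_inj Sum.inl_injective]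
  rw [Finsupp.weight_apply] at h1
  refine Prod.ext ?_ ?_
  · simpa [Finsupp.sum, Prod.fst_sum] using h1
  · simp [Finsupp.sum, Prod.snd_sum]

lemma flw_scale {n M : ℕ} {H : MvPolynomial (Fin n ⊕ Fin M) ℂ} {d e : ℕ} (h : BiH H d e)
    (z : Fin n → ℂ) (u : Fin M → ℂ) (l l' : ℂ) :
    eval (Sum.elim (l • z) (l' • u)) H = l ^ d * l' ^ e * eval (Sum.elim z u) H := by
  rw [eval_eq', eval_eq', mul_sum]
  refine sum_congr rfl fun m hm => ?_
  have h1 := h (mem_support_iff.1 hm)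
  rw [Finsupp.weight_apply, Finsupp.sum_fintype _ _ (by simp), Fintype.sum_sum_type] at h1
  have h2 : ∑ i, m (Sum.inl i) = d := by simpa [Prod.fst_sum] using congrArg Prod.fst h1
  have h3 : ∑ i, m (Sum.inr i) = e := by simpa [Prod.snd_sum] using congrArg Prod.snd h1
  simp only [Fintype.prod_sum_type, Sum.elim_inl, Sum.elim_inr, Pi.smul_apply, smul_eq_mul,
    mul_pow, prod_mul_distrib, prod_pow_eq_pow_sum, h2, h3]
  ring

/-- The integral closure as an algebra. -/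
def flwA {F : Subfield ℂ} (R : Subalgebra F ℂ) (L : Subfield ℂ) (h : F ≤ L) :
    Subalgebra F ℂ where
  carrier := ICs R L
  mul_mem' a b := ⟨mul_mem a.1 b.1, a.2.mul b.2⟩
  add_mem' a b := ⟨add_mem a.1 b.1, a.2.add b.2⟩
  algebraMap_mem' c := ⟨h c.2, isIntegral_algebraMap (x := (⟨_, R.algebraMap_mem c⟩ : R))⟩

lemma flw_alg {F E : Subfield ℂ} {R A : Subalgebra F ℂ} (hRA : R ≤ A) (ψ : A →ₐ[F] ℂ)
    (hE : ∀ r : R, ψ (Subalgebra.inclusion hRA r) ∈ E) (x : A) (hx : IsIntegral R (x : ℂ)) :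
    IsAlgebraic E (ψ x) := by
  obtain ⟨p, p1, p2⟩ := hx
  let ι : R →+* A := (Subalgebra.inclusion hRA : R →ₐ[F] A)
  let φ : R →+* E := ((ψ : A →+* ℂ).comp ι).codRestrict E hE
  refine ⟨p.map φ, (p1.map φ).ne_zero, ?_⟩
  have e : Polynomial.eval₂ ι x p = 0 := by
    apply Subtype.ext
    have := Polynomial.hom_eval₂ p ι (A.val : A →+* ℂ) x
    exact this.trans p2
  have := Polynomial.hom_eval₂ p ι (ψ : A →+* ℂ) x
  rw [e, map_zero] at this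
  rw [Polynomial.aeval_def, Polynomial.eval₂_map]
  exact this.symm

section Pt
variable {n : ℕ}

open Classical in
/-- The projective point defined by a character. -/
noncomputable def flwPt (z₀ : Fin n → ℂ) (x₀ : PS n) (S : Set ℂ) (χ : ℂ → ℂ) : PS n :=
  if h : ∃ c, (∀ i, c * z₀ i ∈ S) ∧ (fun i => χ (c * z₀ i)) ≠ 0 then
    Projectivization.mk ℂ _ h.choose_spec.2 else x₀

lemma flw_pt {z₀ : Fin n → ℂ} (x₀ : PS n) {S : Set ℂ} {χ : ℂ → ℂ}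
    (hχ : ∀ x ∈ S, ∀ x' ∈ S, χ (x * x') = χ x * χ x') {c : ℂ} (h1 : ∀ i, c * z₀ i ∈ S)
    (h2 : (fun i => χ (c * z₀ i)) ≠ 0) : flwPt z₀ x₀ S χ = Projectivization.mk ℂ _ h2 := by
  have h : ∃ c, (∀ i, c * z₀ i ∈ S) ∧ (fun i => χ (c * z₀ i)) ≠ 0 := ⟨c, h1, h2⟩
  rw [flwPt, dif_pos h]
  obtain ⟨j, hj⟩ := Function.ne_iff.1 h2
  have hj' : χ (c * z₀ j) ≠ 0 := hj
  refine (Projectivization.mk_eq_mk_iff' _ _ _ _ _).2
    ⟨χ (h.choose * z₀ j) / χ (c * z₀ j), funext fun i => ?_⟩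
  have e1 := hχ _ (h.choose_spec.1 j) _ (h1 i)
  have e2 := hχ _ (h.choose_spec.1 i) _ (h1 j)
  rw [show h.choose * z₀ j * (c * z₀ i) = h.choose * z₀ i * (c * z₀ j) by ring, e2] at e1
  simp only [Pi.smul_apply, smul_eq_mul]
  rw [div_mul_eq_mul_div, div_eq_iff hj', e1]

lemma flw_rep {v : Fin n → ℂ} (h : v ≠ 0) :
    ∃ l : ℂ, l ≠ 0 ∧ (Projectivization.mk ℂ v h).rep = l • v := by
  obtain ⟨l, hl⟩ := Projectivization.exists_smul_eq_mk_rep ℂ v h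
  exact ⟨l, l.ne_zero, hl.symm⟩

end Pt

section Loc
variable {t M : ℕ} {w : Fin M → Option (Fin t)} {F L : Subfield ℂ} {y₀ y : Fin M → ℂ}
  {χ : ℂ → ℂ} {β : Cht M t}

/-- A point of the normalisation as a homomorphism. -/
noncomputable def flwH (A : Subalgebra F ℂ) (hA : (A : Set ℂ) ⊆ ICs (OH F y₀ y) L)
    (h : Ov F L y₀ y χ) : A →ₐ[F] ℂ where
  toFun x := χ x
  map_one' := h.cst 1 (one_mem F)
  map_mul' x x' := h.mul _ (hA x.2) _ (hA x'.2)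
  map_zero' := h.cst 0 (zero_mem F)
  map_add' x x' := h.add _ (hA x.2) _ (hA x'.2)
  commutes' c := h.cst c c.2

lemma flw_OH {l : ℂ} (hl : l ≠ 0) : OH F y₀ (l • y) = OH F y₀ y := by
  unfold OH
  congr 1
  ext x
  refine exists_congr fun A => exists_congr fun B => exists_congr fun d =>
    and_congr_right fun _ => and_congr_right fun hB => ?_
  simp [eval_smul_hom hB, hl]

lemma flw_Ov {l : ℂ} (hl : l ≠ 0) (h : Ov F L y₀ (l • y) χ) : Ov F L y₀ y χ := by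
  obtain ⟨a, b, c, d, e⟩ := h
  rw [flw_OH hl] at a b c
  refine ⟨a, b, c, d, fun i j hj => ?_⟩
  rw [e i j (mul_ne_zero hl hj)]
  exact mul_div_mul_left _ _ hl

lemma flw_sub (h2 : SLocA) (hL : FL F y₀ ≤ L) (hβ : Ch w β y) (hs : SpH F y₀ y) :
    Ch w β y₀ ∧ ICs (RA F (co β y₀)) L ⊆ ICs (OH F y₀ y) L := by
  obtain ⟨a, ξ, -, b, -⟩ := h2 t M w F L y₀ y β hL hβ hs
  exact ⟨a, fun x hx => (b x).2 ⟨1, by simp, by simpa using hx⟩⟩

lemma flw_RA (hL : FL F y₀ ≤ L) :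
    RA F (co β y₀) ≤ flwA (RA F (co β y₀)) L ((le_FL F y₀).trans hL) := fun x hx =>
  ⟨hL (RA_le_field (le_FL F y₀) (fun i => rat_FL F y₀ (co_mem β y₀ i)) x hx),
    isIntegral_algebraMap (x := (⟨x, hx⟩ : RA F (co β y₀)))⟩

lemma flw_ind (h3 : SInd) (hβ : Ch w β y) {m : ℕ} (h : Ind F m (rat y)) :
    Ind F m (Set.range (co β y)) := by
  refine h3.alg F m _ (h.mono le_rfl le_rfl fun x hx => ?_)
  have : x ∈ Subfield.closure (F ∪ Set.range (co β y) : Set ℂ) := FL_chart hβ F ▸ rat_FL F y hx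
  exact isAlgebraic_algebraMap (⟨x, this⟩ : Subfield.closure (F ∪ Set.range (co β y) : Set ℂ))

end Loc

section Main
variable {t a M n : ℕ} {w : Fin M → Option (Fin t)} {Θ : Pt t a → Fin M → ℂ} {PP : PT M t a}
  {K : Type} [Field K] [Algebra ℂ K] {U : Set (PS n)} {z : Fin n → K} {u : Fin M → K}
  {k F L : Subfield ℂ} {p₀ : Pt t a} {m : ℕ} {lam : Fin (m + 1) → Pt t a} {δ : Fin (m + 1) → Der}
  {z₀ : Fin n → ℂ} {y : Fin M → ℂ} {χ : ℂ → ℂ} {β : Cht M t}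

lemma EtC.flw_le (h : EtC w Θ PP U z u k F L p₀ lam δ z₀) : FL F (Θ p₀) ≤ L := by
  obtain ⟨T, -, e⟩ := h.fin
  rw [e]
  exact fun _ hx => Subfield.subset_closure (Or.inl hx)

/-- The witness at a good point. -/
lemma flw_wit (h2 : SLocA) (h3 : SInd) (h : EtC w Θ PP U z u k F L p₀ lam δ z₀) (hβ : Ch w β y)
    (hs : SpH F (Θ p₀) y) (ho : Ov F L (Θ p₀) y χ) (hi : Ind F m (rat y)) :
    ∃ c : ℂ, c ≠ 0 ∧ (∀ i, c * z₀ i ∈ ICs (RA F (co β (Θ p₀))) L) ∧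
      (fun i => χ (c * z₀ i)) ≠ 0 ∧ ∃ (H : PR n) (e : ℕ), H.IsHomogeneous e ∧
      (∀ y ∈ zcl U, eval y.rep H ≠ 0 → y ∈ U) ∧ eval (fun i => χ (c * z₀ i)) H ≠ 0 := by
  obtain ⟨b0, hA⟩ := flw_sub h2 h.flw_le hβ hs
  let A := flwA (RA F (co β (Θ p₀))) L ((le_FL F _).trans h.flw_le)
  let ψ : A →ₐ[F] ℂ := flwH A hA ho
  obtain ⟨y', y1, y2⟩ := flw_ind h3 hβ hi
  choose yy hy using y1
  obtain ⟨P, N, ρ, b, H, e, j, P0, PF, hP, hw⟩ := h.cod β b0 yy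
  have hR := flw_RA (β := β) h.flw_le
  have e1 : ψ (∑ i, (⟨ρ i, (hw i).1⟩ * ⟨b i, (hw i).2.2.bS⟩ : A)) = eval y' P := by
    rw [PF.map_eval le_rfl ψ (fun i => ⟨co β (Θ p₀) (yy i), hR (gen_mem _ _)⟩) _
      (by rw [AddSubmonoidClass.coe_finsetSum]; exact hP.symm)]
    congr 2
    ext i
    rw [← hy i]
    exact ho.val _ _ (hβ _).2
  have e2 : eval y' P ≠ 0 := by
    obtain ⟨P', rfl⟩ := cf_iff.1 PF
    rw [eval_map_sub]
    intro e0
    rw [algebraicIndependent_iff.1 y2 P' e0, map_zero] at P0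
    exact P0 rfl
  rw [← e1, map_sum] at e2
  obtain ⟨i, -, hi⟩ := exists_ne_zero_of_sum_ne_zero e2
  rw [map_mul] at hi
  have b1 : χ (b i) ≠ 0 := right_ne_zero_of_mul hi
  have b2 : b i ≠ 0 := fun e0 => b1 (by rw [e0]; exact ho.cst 0 (zero_mem F))
  obtain ⟨-, Hk, W⟩ := hw i
  have j0 := W.j0
  have H0 : eval z₀ (H i) ≠ 0 := W.H0
  have c1 : ∀ l, b i / z₀ (j i) * z₀ l ∈ ICs (RA F (co β (Θ p₀))) L := fun l => by
    rw [show b i / z₀ (j i) * z₀ l = b i * (z₀ l / z₀ (j i)) by ring]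
    exact W.zS l
  refine ⟨b i / z₀ (j i), div_ne_zero b2 j0, c1, Function.ne_iff.2 ⟨j i, ?_⟩, H i, e i, W.hom,
    W.inU, ?_⟩
  · rw [div_mul_cancel₀ _ j0]
    exact b1
  · let x : Fin n → A := fun l => ⟨_, c1 l⟩
    have m1 : eval (fun l => (x l : ℂ)) (H i) ∈ A :=
      RA_le (S := A.toSubring) (fun c hc => A.algebraMap_mem ⟨c, hc⟩) (fun l => (x l).2) _
        ((Hk.mono h.le).eval_mem _)
    have e3 := Hk.map_eval h.le ψ x ⟨_, m1⟩ rfl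
    have e4 : (⟨_, m1⟩ * ⟨_, W.HS⟩ : A) = ⟨b i, W.bS⟩ ^ (e i + 1) := by
      apply Subtype.ext
      have : eval (fun l => (x l : ℂ)) (H i) = (b i / z₀ (j i)) ^ e i * eval z₀ (H i) :=
        eval_smul_hom W.hom _ z₀
      change eval (fun l => (x l : ℂ)) (H i) * (b i * (z₀ (j i) ^ e i / eval z₀ (H i))) =
        b i ^ (e i + 1)
      rw [this, div_pow]
      field_simp
      ring
    have e5 := congrArg ψ e4
    rw [map_mul, map_pow, e3] at e5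
    exact left_ne_zero_of_mul (e5 ▸ pow_ne_zero _ b1)

/-- The relation with the generic point. -/
lemma flw_rel (h2 : SLocA) (h : EtC w Θ PP U z u k F L p₀ lam δ z₀) (hβ : Ch w β y)
    (hs : SpH F (Θ p₀) y) (ho : Ov F L (Θ p₀) y χ) {c : ℂ}
    (hc : ∀ i, c * z₀ i ∈ ICs (RA F (co β (Θ p₀))) L) (l : ℂ) :
    Rel z u (l • fun i => χ (c * z₀ i)) y := by
  obtain ⟨b0, hA⟩ := flw_sub h2 h.flw_le hβ hs
  let A := flwA (RA F (co β (Θ p₀))) L ((le_FL F _).trans h.flw_le)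
  let ψ : A →ₐ[F] ℂ := flwH A hA ho
  have hR := flw_RA (β := β) h.flw_le
  refine h.gen _ _ fun H d e hH Hk H0 => ?_
  let x : Fin n ⊕ Fin M → A := Sum.elim (fun i => ⟨_, hc i⟩)
    fun i => ⟨co β (Θ p₀) (i, none), hR (gen_mem _ _)⟩
  have e1 : (fun i => (x i : ℂ)) = Sum.elim (c • z₀) ((Θ p₀ (β none))⁻¹ • Θ p₀) := by
    ext (i | i)
    · rfl
    · exact div_eq_inv_mul _ _
  have e2 : (fun i => ψ (x i)) = Sum.elim ((1 : ℂ) • fun i => χ (c * z₀ i))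
      ((y (β none))⁻¹ • y) := by
    ext (i | i)
    · exact (one_mul _).symm
    · exact (ho.val _ _ (hβ none).2).trans (div_eq_inv_mul _ _)
  have e3 := Hk.map_eval h.le ψ x 0 (by
    rw [e1, flw_scale hH, (h.rel H d e hH Hk).1 H0, mul_zero]; rfl)
  rw [map_zero, e2, flw_scale hH, one_pow, one_mul] at e3
  have e4 := (mul_eq_zero.1 e3.symm).resolve_left (pow_ne_zero _ (inv_ne_zero (hβ none).2))
  have e5 := flw_scale hH (fun i => χ (c * z₀ i)) y l 1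
  rw [one_smul, e4, mul_zero] at e5
  exact e5

lemma flw_zcl (hM : Mp w Θ U z u) {x : PS n} (h : Rel z u x.rep y) : x ∈ zcl U := by
  refine mem_zcl.2 fun G d hG G0 => ?_
  have := h _ d 0 (flw_biH (κ := Fin M) hG) (by
    rw [aeval_rename]; exact (hM.gen.1 G d hG).2 G0)
  rw [aeval_rename] at this
  exact this

lemma flw_algP (h2 : SLocA) (h : EtC w Θ PP U z u k F L p₀ lam δ z₀) (hβ : Ch w β y)
    (hs : SpH F (Θ p₀) y) (ho : Ov F L (Θ p₀) y χ) {x : ℂ}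
    (hx : x ∈ ICs (RA F (co β (Θ p₀))) L) : IsAlgebraic (FL F y) (χ x) := by
  obtain ⟨b0, hA⟩ := flw_sub h2 h.flw_le hβ hs
  let A := flwA (RA F (co β (Θ p₀))) L ((le_FL F _).trans h.flw_le)
  let ψ : A →ₐ[F] ℂ := flwH A hA ho
  have hR := flw_RA (β := β) h.flw_le
  refine flw_alg hR ψ (fun r => ?_) ⟨x, hx⟩ hx.2
  obtain ⟨P, PF, hP⟩ := mem_RA.1 r.2
  rw [PF.map_eval le_rfl ψ (fun i => ⟨co β (Θ p₀) i, hR (gen_mem _ _)⟩) _ hP.symm]
  refine PF.eval_mem_field (le_FL F y) fun i => rat_FL F y ⟨i.1, β i.2, ?_⟩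
  exact ho.val _ _ (hβ _).2

lemma flw_gen (h2 : SLocA) (h3 : SInd) (h : EtC w Θ PP U z u k F L p₀ lam δ z₀) (hβ : Ch w β y)
    (hs : SpH F (Θ p₀) y) (ho : Ov F L (Θ p₀) y χ) (hi : Ind F (m + 1) (rat y)) {c : ℂ}
    (c0 : c ≠ 0) (hc : ∀ i, c * z₀ i ∈ ICs (RA F (co β (Θ p₀))) L) {R : PR n} {e : ℕ}
    (hR : R.IsHomogeneous e) (Rk : Cf k R) (R0 : aeval z R ≠ 0) :
    eval (fun i => χ (c * z₀ i)) R ≠ 0 := by
  obtain ⟨b0, hA⟩ := flw_sub h2 h.flw_le hβ hs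
  let A := flwA (RA F (co β (Θ p₀))) L ((le_FL F _).trans h.flw_le)
  let ψ : A →ₐ[F] ℂ := flwH A hA ho
  have hRA := flw_RA (β := β) h.flw_le
  let x : Fin n → A := fun l => ⟨_, hc l⟩
  have m1 : eval (fun l => (x l : ℂ)) R ∈ A :=
    RA_le (S := A.toSubring) (fun c hc => A.algebraMap_mem ⟨c, hc⟩) (fun l => (x l).2) _
      ((Rk.mono h.le).eval_mem _)
  have e3 := Rk.map_eval h.le ψ x ⟨_, m1⟩ rfl
  have R1 : eval z₀ R ≠ 0 := fun e0 => R0 (by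
    have := (h.rel _ e 0 (flw_biH (κ := Fin M) hR) (Rk.rename _)).2 (by
      rw [eval_rename]; exact e0)
    rwa [aeval_rename] at this)
  intro e0
  have i1 : Ind F (m + 1) (Set.range ψ) := (flw_ind h3 hβ hi).mono le_rfl le_rfl (by
    rintro _ ⟨i, rfl⟩
    exact ⟨⟨co β (Θ p₀) i, hRA (gen_mem _ _)⟩, ho.val _ _ (hβ _).2⟩)
  have i2 := (h3.hom F A ψ (m + 1) i1).2 ⟨_, m1⟩ (fun e1 => by
    have e2 : eval (c • z₀) R = 0 := congrArg Subtype.val e1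
    rw [eval_smul_hom hR] at e2
    exact mul_ne_zero (pow_ne_zero _ c0) R1 e2) (e3.trans e0)
  refine h.axo.dim (h3.alg F _ _ (i2.mono le_rfl le_rfl fun v hv => ?_))
  exact flw_alg (E := FL F (Θ p₀)) hRA A.val (fun r => RA_le_field (le_FL F _)
    (fun i => rat_FL F _ (co_mem β _ i)) _ r.2) ⟨v, hv⟩ hv.2

lemma flw_qq (hG : GA w Θ) {x : Fin (m + 1) → ℂ} (hx : ∑ l, x l • lam l ∈ Lam Θ)
    (s : Fin (m + 1) → ℂ) : ∃ l : ℂ, l ≠ 0 ∧ Θ (qq p₀ lam (s + x)) = l • Θ (qq p₀ lam s) := by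
  obtain ⟨l, hl⟩ := (hG.par (qq p₀ lam (s + x)) (qq p₀ lam s)).2 (by
    convert hx using 1
    simp [qq, add_smul, sum_add_distrib])
  refine ⟨l, fun e => ?_, hl⟩
  obtain ⟨b, -, hb⟩ := hG.blk (qq p₀ lam (s + x)) none
  rw [hl, e, zero_smul] at hb
  exact hb rfl

lemma flw_nsmul (hG : GA w Θ) {x : Pt t a} (hx : x ∈ Lam Θ) (N : ℕ) : N • x ∈ Lam Θ := by
  have h0 : (0 : Pt t a) ∈ Lam Θ := ⟨1, (one_smul _ _).symm⟩
  induction N with
  | zero => rwa [zero_smul]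
  | succ N ih =>
    have := hG.lsub _ ih _ (hG.lsub _ h0 _ hx)
    rwa [zero_sub, sub_neg_eq_add, ← succ_nsmul] at this

end Main

theorem sFlw (h1 : SMono) (h2 : SLocA) (h3 : SInd) : SFlw := by
  intro t a M n w Θ PP K _ _ U z u k F L p₀ m lam δ z₀ R e hG hM h hs hC hR Rk R0
  obtain ⟨τ, hτ, hp⟩ := h1 (m + 1) (ℂ → ℂ) _ (fun σ s hσ => eventually_eventually_nhds.2 hσ)
    (fun σ σ' s hσ he => by
      filter_upwards [hσ, he.eventuallyEq_nhds] with s' a b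
      refine ⟨b.eq_of_nhds ▸ a.1, fun x hx => (a.2 x hx).congr_of_eventuallyEq ?_⟩
      filter_upwards [b] with s'' c
      rw [c]) hC
  obtain ⟨N, N0, hN⟩ := hp {x | ∑ l, x l • lam l ∈ Lam Θ} (fun x hx σ s hσ => by
    have c1 : Tendsto (fun s => s + x) (𝓝 s) (𝓝 (s + x)) := (continuous_add_const x).tendsto s
    filter_upwards [c1.eventually hσ] with s' a
    obtain ⟨l, l0, hl⟩ := flw_qq (p₀ := p₀) hG hx s'
    rw [hl, flw_OH l0] at a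
    exact ⟨flw_Ov l0 a.1, fun v hv => (a.2 v hv).comp s' (contDiffAt_id.add contDiffAt_const)⟩)
  obtain ⟨x₀, -⟩ := hM.var.1.1
  have ho : ∀ s, Ov F L (Θ p₀) (Θ (qq p₀ lam s)) (τ s) := fun s => (hτ s).self_of_nhds.1
  refine ⟨fun s => flwPt z₀ x₀ (ICs (OH F (Θ p₀) (Θ (qq p₀ lam s))) L) (τ s), N, h.gd, h.gk, h.le,
    h.cnt, h.axo, fun s hi => ?_, fun s hi => ?_, N0, fun s x hx => ?_⟩
  · obtain ⟨β, hβ⟩ := h.gd.ch (qq p₀ lam s)
    obtain ⟨c, -, c1, c2, H, d, H1, H2, H3⟩ := flw_wit h2 h3 h hβ (hs s) (ho s) hi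
    have hA := (flw_sub h2 h.flw_le hβ (hs s)).2
    rw [flw_pt x₀ (ho s).mul (fun i => hA (c1 i)) c2]
    obtain ⟨l, l0, hl⟩ := flw_rep c2
    have r : Rel z u (Projectivization.mk ℂ _ c2).rep (Θ (qq p₀ lam s)) :=
      hl ▸ flw_rel h2 h hβ (hs s) (ho s) c1 l
    refine ⟨H2 _ (flw_zcl hM r) ?_, r, ?_, fun s i => τ s (c * z₀ i), ?_, ?_⟩
    · rw [hl, eval_smul_hom H1]
      exact mul_ne_zero (pow_ne_zero _ l0) H3
    · rw [hl, rat_smul l0]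
      rintro _ ⟨i, j, rfl⟩
      rw [div_eq_mul_inv]
      exact (flw_algP h2 h hβ (hs s) (ho s) (c1 i)).mul (flw_algP h2 h hβ (hs s) (ho s) (c1 j)).inv
    · exact contDiffAt_pi.2 fun i => (hτ s).self_of_nhds.2 _ (hA (c1 i))
    · obtain ⟨j, hj⟩ := Function.ne_iff.1 c2
      have cq : Continuous fun s => Θ (qq p₀ lam s) := hG.hol.continuous.comp (by
        unfold qq; fun_prop)
      have e1 : ∀ᶠ s' in 𝓝 s, ∀ o, Θ (qq p₀ lam s') (β o) ≠ 0 := eventually_all.2 fun o =>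
        ((continuous_apply (β o)).comp cq).continuousAt.eventually_ne (hβ o).2
      have e2 := ((hτ s).self_of_nhds.2 _ (hA (c1 j))).continuousAt.eventually_ne hj
      filter_upwards [e1, e2] with s' a b
      have hA' := (flw_sub h2 h.flw_le (fun o => ⟨(hβ o).1, a o⟩) (hs s')).2
      exact ⟨Function.ne_iff.2 ⟨j, b⟩, flw_pt x₀ (ho s').mul (fun i => hA' (c1 i)) _⟩
  · obtain ⟨β, hβ⟩ := h.gd.ch (qq p₀ lam s)
    obtain ⟨c, c0, c1, c2, -⟩ := flw_wit h2 h3 h hβ (hs s) (ho s)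
      (hi.mono le_rfl (Nat.le_succ m) subset_rfl)
    have hA := (flw_sub h2 h.flw_le hβ (hs s)).2
    rw [flw_pt x₀ (ho s).mul (fun i => hA (c1 i)) c2]
    obtain ⟨l, l0, hl⟩ := flw_rep c2
    rw [hl, eval_smul_hom hR]
    exact mul_ne_zero (pow_ne_zero _ l0) (flw_gen h2 h3 h hβ (hs s) (ho s) hi c0 c1 hR Rk R0)
  · have hx' : ∑ l, (N • x) l • lam l ∈ Lam Θ := by
      convert flw_nsmul hG hx N using 1
      rw [smul_sum]
      exact sum_congr rfl fun l _ => smul_assoc N (x l) (lam l)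
    obtain ⟨l, l0, hl⟩ := flw_qq (p₀ := p₀) hG hx' s
    rw [hN x hx s, hl, flw_OH l0]

end Pool.Agent.MP_c69980_ag.H43
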